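import Pool.Agent.R59.DA.Main

/-!
# MP_cbc67c_co : polynomial stability for `T_r[t]`-free digraphs of large minimum out-degree

Full answer to Q1: yes.
-/

namespace Pool.Agent.Results.MP_cbc67c_co.PolynomialStability

open Classical

/-- A digraph on the vertex set `V`: no loops, no parallel arcs, anti-parallel arcs allowed. -/
structure Digr (V : Type) where
  arc : V → V → Prop
  noLoop : ∀ v, ¬ arc v v

/-- `D` has a subdigraph (not necessarily induced) isomorphic to `H`. -/
def Contains {W V : Type} (H : Digr W) (D : Digr V) : Prop :=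
  ∃ f : W → V, Function.Injective f ∧ ∀ a b, H.arc a b → D.arc (f a) (f b)

/-- The blow-up `T_r[t]` of the transitive tournament: vertices `(i, a)` with `i < r`, `a < t`,
and an arc `(i, a) → (j, b)` iff `i < j`. -/
def blowUp (r t : ℕ) : Digr (Fin r × Fin t) where
  arc x y := x.1 < y.1
  noLoop x := lt_irrefl x.1

/-- The out-degree of a vertex. -/
noncomputable def outDeg {V : Type} [Fintype V] (D : Digr V) (v : V) : ℕ :=
  (Finset.univ.filter (fun w => D.arc v w)).card

/-- The digraph obtained by deleting the arcs in `F`. -/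
def delete {V : Type} (D : Digr V) (F : Finset (V × V)) : Digr V where
  arc x y := D.arc x y ∧ (x, y) ∉ F
  noLoop v h := D.noLoop v h.1

/-- `D` is `m`-partite: the vertex set splits into `m` parts (the fibres of `c`) with no arc
inside any part. -/
def IsPartite {V : Type} (D : Digr V) (m : ℕ) : Prop :=
  ∃ c : V → Fin m, ∀ x y, D.arc x y → c x ≠ c y

/-- **Q1 of MP_cbc67c_co is true.** For all `r ≥ 3`, `t ≥ 1` there is `α > 0` such that for every
`ε > 0` there are `C` and `n₀` such that every `T_r[t]`-free digraph `D` on `n ≥ n₀` vertices with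
minimum out-degree at least `((3r-7)/(3r-4) + ε) n` becomes `(r-1)`-partite after deleting a set
`F` of at most `C n ^ (2 - α)` arcs. -/
theorem result (r t : ℕ) (hr : 3 ≤ r) (ht : 1 ≤ t) :
    ∃ α : ℝ, 0 < α ∧ ∀ ε : ℝ, 0 < ε → ∃ (C : ℝ) (n₀ : ℕ),
      ∀ (V : Type) [Fintype V] (D : Digr V), n₀ ≤ Fintype.card V →
        ¬ Contains (blowUp r t) D →
        (∀ v, ((3 * (r : ℝ) - 7) / (3 * (r : ℝ) - 4) + ε) * Fintype.card V ≤ (outDeg D v : ℝ)) →
        ∃ F : Finset (V × V), (∀ z ∈ F, D.arc z.1 z.2) ∧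
          (F.card : ℝ) ≤ C * (Fintype.card V : ℝ) ^ (2 - α) ∧ IsPartite (delete D F) (r - 1) := by
  obtain ⟨α, hα, h⟩ := R59.DA.main r t hr ht
  refine ⟨α, hα, ?_⟩
  intro ε hε
  obtain ⟨n₀, hn⟩ := h ε hε
  refine ⟨2, n₀, ?_⟩
  intro V _ D hV hfree hdeg
  obtain ⟨F, h1, h2, c, hc⟩ := hn V D.arc D.noLoop hV
    (by
      rintro ⟨f, hf, harc⟩
      apply hfree
      refine ⟨f, hf, ?_⟩
      rintro ⟨i, a⟩ ⟨j, b⟩ hij
      exact harc i j hij a b)
    hdeg
  refine ⟨F, h1, h2, c, ?_⟩
  rintro x y ⟨hxy, hF⟩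
  exact hc x y hxy hF

end Pool.Agent.Results.MP_cbc67c_co.PolynomialStability
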